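import Pool.Agent.Lib.MP_d8c195_lc.Defs
import Pool.Agent.Shared.NP.Defs
import Pool.Agent.Lib.MP_d8c195_lc.Main

open Pool.Agent.Lib.MP_d8c195_lc Pool.Agent.Shared.NP

/-- Deciding `iacr(G) ≤ k` is NP-complete, whether or not edges are required to be simple arcs. -/
theorem Pool.Agent.Retired.MP_d8c195_lc.NPComplete.result (simple : Bool) :
    NPComplete Inst.code (IACR simple) :=
  npComplete simple
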